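import Pool.Agent.V5helper50.RS.Stm

/-!
# Project RS, job LAW: the law of the first `n` shifts
-/

set_option autoImplicit false

open Finset MeasureTheory ProbabilityTheory

namespace Pool.Agent.V5helper68.RS

open Pool.Agent.V5helper50.RS

theorem pr_step {T : ℕ → ℕ} (n : ℕ) (E : (ℕ → ℕ) → Prop) :
    pr T (n + 1) E =
      (∑ v ∈ range (T n), pr T n (fun t => E (Function.update t n v))) / T n := by
  classical
  unfold pr
  rw [div_eq_inv_mul, ← av_sum, ← av_smul]
  show av T n _ = av T n _
  congr 1
  funext t
  rw [div_eq_inv_mul]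

/-- **LAW.** -/
theorem t_LAW : S_LAW := by
  intro Ω _ μ _ θ hm hi T hT hlt hu n
  have hmeas : ∀ (n : ℕ) (E : (ℕ → ℕ) → Prop), (∀ t t', (∀ x < n, t x = t' x) → (E t ↔ E t')) →
      ∃ s : Set (↥(range n) → ℕ), MeasurableSet s ∧
        {ω | E (fun x => θ x ω)} = (fun ω (i : ↥(range n)) => θ i ω) ⁻¹' s := by
    intro n E hE
    refine ⟨{s | E (fun x => if h : x ∈ range n then s ⟨x, h⟩ else 0)},
      (Set.to_countable _).measurableSet, ?_⟩
    ext ω
    simp only [Set.mem_setOf_eq, Set.mem_preimage]
    refine hE _ _ fun x hx => ?_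
    rw [dif_pos (mem_range.2 hx)]
  have hmeas' : ∀ (n : ℕ) (E : (ℕ → ℕ) → Prop), (∀ t t', (∀ x < n, t x = t' x) → (E t ↔ E t')) →
      MeasurableSet {ω | E (fun x => θ x ω)} := by
    intro n E hE
    obtain ⟨s, hs, he⟩ := hmeas n E hE
    rw [he]
    have hmp : Measurable fun ω (i : ↥(range n)) => θ i ω := measurable_pi_iff.2 fun i => hm i
    exact hmp hs
  intro E hE
  refine ⟨hmeas' n E hE, ?_⟩
  induction n generalizing E with
  | zero =>
    classical
    have h1 : ∀ ω, E (fun x => θ x ω) ↔ E (fun _ => 0) := fun ω => hE _ _ fun x hx => by omega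
    simp only [h1]
    have h2 : pr T 0 E = if E (fun _ => 0) then (1 : ℝ) else 0 := rfl
    rw [h2]
    by_cases h3 : E (fun _ => 0)
    · rw [if_pos h3]
      simp only [h3, Set.setOf_true]
      exact probReal_univ
    · rw [if_neg h3]
      simp only [h3, Set.setOf_false]
      exact measureReal_empty
  | succ n ih =>
    have hEv : ∀ v : ℕ, ∀ t t' : ℕ → ℕ, (∀ x < n, t x = t' x) →
        (E (Function.update t n v) ↔ E (Function.update t' n v)) := by
      intro v t t' h
      refine hE _ _ fun x hx => ?_
      by_cases hxn : x = n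
      · subst hxn
        rw [Function.update_self, Function.update_self]
      · rw [Function.update_of_ne hxn, Function.update_of_ne hxn]
        exact h x (by omega)
    have hset : {ω | E (fun x => θ x ω)} = ⋃ v ∈ range (T n), ({ω | θ n ω = v} ∩
        {ω | E (Function.update (fun x => θ x ω) n v)}) := by
      ext ω
      simp only [Set.mem_setOf_eq, Set.mem_iUnion, Set.mem_inter_iff, mem_range, exists_prop]
      constructor
      · intro h
        refine ⟨θ n ω, hlt n ω, rfl, ?_⟩
        have h1 : Function.update (fun x => θ x ω) n (θ n ω) = fun x => θ x ω :=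
          Function.update_eq_self n _
        rw [h1]
        exact h
      · rintro ⟨v, -, rfl, h⟩
        have h1 : Function.update (fun x => θ x ω) n (θ n ω) = fun x => θ x ω :=
          Function.update_eq_self n _
        rwa [h1] at h
    have hn : ∀ v : ℕ, MeasurableSet {ω | θ n ω = v} := fun v =>
      hm n (measurableSet_singleton v)
    have hind := hi.indepFun_finset {n} (range n)
      (by rw [Finset.disjoint_singleton_left]; exact notMem_range_self) hm
    have hprod : ∀ v : ℕ, μ.real ({ω | θ n ω = v} ∩
        {ω | E (Function.update (fun x => θ x ω) n v)}) =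
        μ.real {ω | θ n ω = v} * μ.real {ω | E (Function.update (fun x => θ x ω) n v)} := by
      intro v
      obtain ⟨s, hs, he⟩ := hmeas n (fun t => E (Function.update t n v)) (hEv v)
      have h1 : {ω | θ n ω = v} = (fun ω (i : ↥({n} : Finset ℕ)) => θ i ω) ⁻¹'
          {s | s ⟨n, mem_singleton_self n⟩ = v} := rfl
      have h2 : MeasurableSet {s : ↥({n} : Finset ℕ) → ℕ | s ⟨n, mem_singleton_self n⟩ = v} :=
        (Set.to_countable _).measurableSet
      have h3 := hind.measure_inter_preimage_eq_mul _ _ h2 hs
      rw [measureReal_def, measureReal_def, measureReal_def, he, h1, h3, ENNReal.toReal_mul]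
    rw [hset, measureReal_biUnion_finset, pr_step, Finset.sum_div]
    · refine Finset.sum_congr rfl fun v hv => ?_
      rw [hprod v, hu n v (mem_range.1 hv), ih _ (hEv v)]
      ring
    · intro v _ v' _ hvv
      rw [Function.onFun, Set.disjoint_left]
      rintro ω ⟨h1, -⟩ ⟨h2, -⟩
      exact hvv (h1.symm.trans h2)
    · intro v _
      exact (hn v).inter (hmeas' n (fun t => E (Function.update t n v)) (hEv v))

end Pool.Agent.V5helper68.RS
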